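import Pool.Agent.H47.ST.Targets

namespace Pool.Agent.H60.STK

open Finset Pool.Agent.H47.ST

theorem top_max (h : ℕ) (B : List ℕ) : top h B = max h (top 0 B) := by
  induction B generalizing h with
  | nil => simp [top]
  | cons r B ih =>
    simp only [top]
    rw [ih (max h (r + 1)), ih (max 0 (r + 1))]
    omega

theorem top_cons (r : ℕ) (B : List ℕ) : top 0 (r :: B) = max (r + 1) (top 0 B) := by
  simp only [top]
  rw [top_max]
  omega

theorem top_app (X Y : List ℕ) : top 0 (X ++ Y) = max (top 0 X) (top 0 Y) := by
  induction X with
  | nil => simp [top]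
  | cons r X ih => rw [List.cons_append, top_cons, top_cons, ih]; omega

theorem top_rev (B : List ℕ) : top 0 B.reverse = top 0 B := by
  induction B with
  | nil => rfl
  | cons r B ih =>
    rw [List.reverse_cons, top_app, top_cons, top_cons, ih]
    simp only [top]
    omega

theorem top_up (e h : ℕ) (B : List ℕ) :
    top 0 (up e h B) = if h < top 0 B ∧ (top 0 B - 1) % 2 = e then top 0 B + 1 else top 0 B := by
  induction B generalizing h with
  | nil => simp [top, up]
  | cons r B ih =>
    simp only [up]
    by_cases hr : h ≤ r
    · rw [if_pos hr, top_cons, top_cons, ih]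
      split_ifs <;> omega
    · rw [if_neg hr, top_cons, top_cons, ih]
      split_ifs <;> omega

theorem pf_TOP : T_TOP := ⟨top_max, top_app, top_rev, top_up⟩

end Pool.Agent.H60.STK
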