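import Pool.Agent.H47.ST.Targets
import Pool.Agent.H60.STK.TOP

namespace Pool.Agent.H60.STK

open Finset Pool.Agent.H47.ST

theorem pf_APP : T_APP := by
  intro R W U e hl hr X Y
  induction X generalizing hl with
  | nil => simp [phC, top]
  | cons r X ih =>
    rw [List.cons_append]
    simp only [phC]
    rw [ih, top_app, top_cons, mul_assoc]
    have h1 : max (max (top 0 X) (top 0 Y)) hr = max (top 0 X) (max (top 0 Y) hr) := by omega
    have h2 : max (max hl (r + 1)) (top 0 X) = max hl (max (r + 1) (top 0 X)) := by omega
    rw [h1, h2]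

end Pool.Agent.H60.STK
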