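import Pool.Agent.H47.ST.Targets
import Pool.Agent.H60.STK.TOP

namespace Pool.Agent.H60.STK

open Finset Pool.Agent.H47.ST

theorem tops_cons (B : List ℕ) (A : List (List ℕ)) : tops (B :: A) = max (top 0 B) (tops A) := rfl

theorem list_range_sum (n : ℕ) (g : ℕ → ℝ) : ((List.range n).map g).sum = ∑ p ∈ range n, g p := by
  rw [Finset.sum_eq_multiset_sum, Finset.range_val, Multiset.range, Multiset.map_coe,
    Multiset.sum_coe]

open Classical in
/-- the term of a placement -/
noncomputable def lrt (R e : ℕ) (W : ℝ) (s : ℕ → ℝ) (q : Pl) : ℝ :=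
  if home q.2.1 q.2.2.1 q.2.2.2 ∧ 1 ≤ top 0 q.2.2.1 ∧
      top 0 q.2.2.1 % 2 = 1 - e ∧ top 0 q.2.2.1 ≤ R then
      s (top 0 q.2.2.1 - 1) / (Real.exp (2 * (zM (top 0 q.2.2.1 - 1) q.2.1 q.2.2.1 : ℝ) / R) *
        W ^ zK (top 0 q.2.2.1 - 1) q.2.1) else 0

theorem lr_gen (h2 : T_ZS) (R e : ℕ) (W : ℝ) (s : ℕ → ℝ) (hR : 1 ≤ R) (hW : 1 < W) (he : e < 2)
    (hs : ∀ c, 0 ≤ s c) (A : List (List ℕ)) : ∀ L0 : List (List ℕ),
    ((plc L0 A).map (lrt R e W s)).sum ≤
    (∑ c ∈ (range R).filter (fun c => c % 2 = e ∧ c + 1 < tops A), s c) *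
      (R / (2 * Real.exp 1) * (W / (W - 1))) := by
  have hG : (0 : ℝ) ≤ R / (2 * Real.exp 1) * (W / (W - 1)) := by
    have : 0 < W - 1 := by linarith
    have : 0 < W := by linarith
    positivity
  have hW0 : 0 < W := by linarith
  induction A with
  | nil =>
    intro L0
    simp only [plc, List.map_nil, List.sum_nil]
    exact mul_nonneg (Finset.sum_nonneg fun c _ => hs c) hG
  | cons B A ih =>
    intro L0
    rw [plc, List.map_append, List.sum_append, List.map_map, list_range_sum]
    -- the first part
    have h3 : (∑ p ∈ range (B.length + 1),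
        (lrt R e W s ∘ fun p => ((L0, B.take p, B.drop p, A) : Pl)) p) ≤
        (∑ c ∈ (range R).filter (fun c => c % 2 = e ∧ tops A ≤ c + 1 ∧ c + 1 < top 0 B), s c) *
          (R / (2 * Real.exp 1) * (W / (W - 1))) := by
      have h4 : ∀ p ∈ range (B.length + 1),
          (lrt R e W s ∘ fun p => ((L0, B.take p, B.drop p, A) : Pl)) p ≤
          ∑ c ∈ (range R).filter (fun c => c % 2 = e ∧ tops A ≤ c + 1 ∧ c + 1 < top 0 B),
            s c * (if top 0 (B.drop p) = c + 1 then
              1 / (Real.exp (2 * (zM c (B.take p) (B.drop p) : ℝ) / R) *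
                W ^ zK c (B.take p)) else 0) := by
        intro p _
        have hnn : ∀ c, 0 ≤ s c * (if top 0 (B.drop p) = c + 1 then
              1 / (Real.exp (2 * (zM c (B.take p) (B.drop p) : ℝ) / R) *
                W ^ zK c (B.take p)) else 0) := by
          intro c
          apply mul_nonneg (hs c)
          split_ifs
          · positivity
          · exact le_rfl
        simp only [Function.comp, lrt]
        split_ifs with h
        · obtain ⟨⟨h5, h6⟩, h7, h8, h9⟩ := h
          have h10 : top 0 B = max (top 0 (B.take p)) (top 0 (B.drop p)) := by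
            rw [← top_app, List.take_append_drop]
          have h11 : top 0 (B.drop p) - 1 ∈ (range R).filter
              (fun c => c % 2 = e ∧ tops A ≤ c + 1 ∧ c + 1 < top 0 B) := by
            rw [Finset.mem_filter, Finset.mem_range]
            omega
          refine le_trans ?_ (Finset.single_le_sum (fun c _ => hnn c) h11)
          rw [if_pos (by omega), mul_one_div]
        · exact Finset.sum_nonneg fun c _ => hnn c
      refine (Finset.sum_le_sum h4).trans ?_
      rw [Finset.sum_comm, Finset.sum_mul]
      refine Finset.sum_le_sum fun c _ => ?_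
      rw [← Finset.mul_sum]
      exact mul_le_mul_of_nonneg_left (h2 R c W B hR hW) (hs c)
    refine (add_le_add h3 (ih (L0 ++ [B]))).trans ?_
    rw [← add_mul]
    apply mul_le_mul_of_nonneg_right _ hG
    rw [← Finset.sum_union]
    · apply Finset.sum_le_sum_of_subset_of_nonneg
      · intro c hc
        simp only [Finset.mem_union, Finset.mem_filter, Finset.mem_range, tops_cons] at hc ⊢
        omega
      · intro c _ _
        exact hs c
    · rw [Finset.disjoint_left]
      intro c hc hc'
      simp only [Finset.mem_filter] at hc hc'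
      omega

theorem pf_LR (h1 : T_TOP) (h2 : T_ZS) : T_LR := by
  intro R e W A s hR hW he hs
  have h3 := lr_gen h2 R e W s hR hW he hs A []
  have hG : (0 : ℝ) ≤ R / (2 * Real.exp 1) * (W / (W - 1)) := by
    have : 0 < W - 1 := by linarith
    have : 0 < W := by linarith
    positivity
  refine le_trans (le_of_eq ?_) (h3.trans (mul_le_mul_of_nonneg_right ?_ hG))
  · congr 1
  · apply Finset.sum_le_sum_of_subset_of_nonneg
    · intro c hc
      simp only [Finset.mem_filter] at hc ⊢
      exact ⟨hc.1, hc.2.1⟩
    · intro c _ _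
      exact hs c

end Pool.Agent.H60.STK
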