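import Pool.Agent.H47.ST.Targets

namespace Pool.Agent.H60.STK

open Finset Pool.Agent.H47.ST

theorem reach_step (k : ℕ) : ∀ (V V2 : List (List ℕ)) (q : Pl), V2 ∈ reach k V →
    q ∈ plc [] V2 → vpl q ∈ reach (k + 1) V := by
  induction k with
  | zero =>
    intro V V2 q h hq
    simp only [reach, Finset.mem_singleton] at h
    subst h
    simp only [reach, Finset.mem_biUnion, Finset.mem_image, List.mem_toFinset,
      Finset.mem_singleton]
    exact ⟨vpl q, ⟨q, hq, rfl⟩, rfl⟩
  | succ k ih =>
    intro V V2 q h hq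
    rw [reach] at h ⊢
    rw [Finset.mem_biUnion] at h ⊢
    obtain ⟨V3, h3, h4⟩ := h
    exact ⟨V3, h3, ih V3 V2 q h4 hq⟩

theorem mem_plc (Ls : List (List ℕ)) : ∀ (L0 : List (List ℕ)) (X Y : List ℕ)
    (Rs : List (List ℕ)), ((L0 ++ Ls, X, Y, Rs) : Pl) ∈ plc L0 (Ls ++ (X ++ Y) :: Rs) := by
  induction Ls with
  | nil =>
    intro L0 X Y Rs
    rw [List.nil_append, plc, List.mem_append]
    left
    rw [List.mem_map]
    refine ⟨X.length, ?_, ?_⟩
    · rw [List.mem_range, List.length_append]; omega
    · simp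
  | cons B Ls ih =>
    intro L0 X Y Rs
    rw [List.cons_append, plc, List.mem_append]
    right
    have := ih (L0 ++ [B]) X Y Rs
    rwa [List.append_assoc, List.singleton_append] at this

theorem map_sp (X : List ℕ) (h : 0 ∉ X) : (X.map Nat.pred).map Nat.succ = X := by
  induction X with
  | nil => rfl
  | cons a X ih =>
    rw [List.mem_cons, not_or] at h
    rw [List.map_cons, List.map_cons, ih h.2, Nat.succ_pred (fun h' => h.1 h'.symm)]

theorem map_sp2 (L : List (List ℕ)) (h : 0 ∉ L.flatten) :
    (L.map (List.map Nat.pred)).map (List.map Nat.succ) = L := by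
  induction L with
  | nil => rfl
  | cons a L ih =>
    rw [List.flatten_cons, List.mem_append, not_or] at h
    rw [List.map_cons, List.map_cons, ih h.2, map_sp a h.1]

theorem pf_RCH : T_RCH := by
  intro n
  induction n with
  | zero =>
    intro m V hV hp
    rw [List.range_zero, List.perm_nil, List.flatten_eq_nil_iff] at hp
    rw [reach, Finset.mem_singleton, List.eq_replicate_iff]
    exact ⟨hV, hp⟩
  | succ n ih =>
    intro m V hV hp
    have h0 : 0 ∈ V.flatten := hp.mem_iff.2 (List.mem_range.2 (Nat.succ_pos n))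
    obtain ⟨B, hB, h0B⟩ := List.mem_flatten.1 h0
    obtain ⟨Ls, Rs, rfl⟩ := List.append_of_mem hB
    obtain ⟨X, Y, rfl⟩ := List.append_of_mem h0B
    have hfl : (Ls ++ (X ++ 0 :: Y) :: Rs).flatten =
        (Ls.flatten ++ X) ++ 0 :: (Y ++ Rs.flatten) := by simp
    rw [hfl] at hp
    have hnd : ((Ls.flatten ++ X) ++ 0 :: (Y ++ Rs.flatten)).Nodup :=
      hp.nodup_iff.2 List.nodup_range
    have hn2 := (List.nodup_middle.1 hnd)
    rw [List.nodup_cons] at hn2
    have hn3 := hn2.1
    simp only [List.mem_append, not_or] at hn3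
    obtain ⟨⟨hl, hx⟩, hy, hr⟩ := hn3
    have hp2 : (0 :: ((Ls.flatten ++ X) ++ (Y ++ Rs.flatten))).Perm (List.range (n + 1)) :=
      List.perm_middle.symm.trans hp
    rw [List.range_succ_eq_map, List.perm_cons] at hp2
    let Ls2 := Ls.map (List.map Nat.pred)
    let Rs2 := Rs.map (List.map Nat.pred)
    have e1 : Ls2.map (List.map Nat.succ) = Ls := map_sp2 Ls hl
    have e2 : Rs2.map (List.map Nat.succ) = Rs := map_sp2 Rs hr
    have e3 : (X.map Nat.pred).map Nat.succ = X := map_sp X hx
    have e4 : (Y.map Nat.pred).map Nat.succ = Y := map_sp Y hy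
    have hV2 : Ls2 ++ (X.map Nat.pred ++ Y.map Nat.pred) :: Rs2 ∈ reach n (List.replicate m []) := by
      apply ih
      · rw [← hV]; simp [Ls2, Rs2]
      · have h5 : ((Ls2 ++ (X.map Nat.pred ++ Y.map Nat.pred) :: Rs2).flatten).map Nat.succ =
            (Ls.flatten ++ X) ++ (Y ++ Rs.flatten) := by
          rw [List.flatten_append, List.flatten_cons, List.map_append, List.map_append,
            List.map_append, List.map_flatten, List.map_flatten, e1, e2, e3, e4]
          simp
        rw [← h5] at hp2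
        exact (List.map_perm_map_iff Nat.succ_injective).1 hp2
    have := reach_step n _ _ _ hV2 (mem_plc Ls2 [] (X.map Nat.pred) (Y.map Nat.pred) Rs2)
    rw [vpl] at this
    simp only [List.nil_append] at this
    rwa [e1, e2, e3, e4] at this

end Pool.Agent.H60.STK
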